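import Pool.Agent.J6H35.TL.AllB

set_option autoImplicit false

/-!
# The potentials with orbits which tend to infinity are `C^k`-dense in every dimension `n ≥ k`

Let `2 ≤ k ≤ n`, let `δ > 0` with `δ < (n - k)/((n - 1)(k + 1))` or `δ ≤ 1/(25 (n - 1)²)`, and let `U` be a
`ℤ^n × ℤ`-periodic potential of class `C^k`. For every periodic potential `f₀` of class `C^k` and every
`ε > 0` there is a periodic potential `f` of class `C^k` with `‖f - f₀‖_{C^k} ≤ ε` such that for all
Lagrangians `L(x,v,t)` with `L = |v|²/2 + U(x,t)` for all large `v` the Lagrangian `L + f` has an orbit
whose velocity is at least `c t^δ`.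

Idea of the proof: `f₀ + U` is approximated in `C^k` by a trigonometric polynomial `D`. A linear path with
a large velocity `V` which is not resonant up to a large order is corrected by averaging to an order which
is large in comparison with `1/δ`, so that Newton's equation for `D` holds up to a force which is smaller
than the accelerations, with bounds of all derivatives. In suitable linear coordinates the velocity has a
fast component `~ t^δ`, `r = n - 2` components which are constant and badly approximable, and a slow
component `~ 1/(t log² t)`, so that this coordinate converges.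

Case `n ≥ k + 1`: two positions with `g` steps in between have the distance `g/(t log² t)` in the slow
coordinate and `g^(-1/r-0)` in the badly approximable directions, so always at least `t^(-1/(n-1)-0)`; this
is also true for the corrected paths. The bump potentials of the radius `t^(-1/(n-1)-0)` around the path do
not interact, and their `C^k` norms are at most `t^(δ-1+kδ+(k-1)/(n-1)+0)`, which tends to zero.

Case `n = k ≥ 3`: now the radius has to be `ρ = t^(-(1-u)/(n-1))`, which is larger than what the constant
directions give; for few numbers `g` of steps (at most `t^(1-1/(n-1)+0)/η`, `η` the smallest such number)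
two positions may be near in all directions but the fast one. The sum of `g` consecutive values of a
profile of the fast velocity is near to an integer only for few times; at these times (the bad steps)
the velocity is kept constant, the radius is `t^(-3/(2(n-1)))` and the force is only that of the slow
component, `~ t^(-2)`. The velocity lags behind the profile after bad steps and catches up at once, the
lags are so few and short that they change the sums of `g` velocities only by a small multiple of the
width of the zone which defines the bad steps. So a near collision happens only between bad steps, and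
these are separated by the smaller radius.

Case `n = k = 2`: this is the theorem of helper70, helper33, helper27, helper75, helper59
(`DenseEscapingAllDimensions`), whose averaging to all orders is also used here, together with the start
files `Pool/Agent/N980/TL`; the `C^k` part is in `Pool/Agent/J6H35/TL`.
-/

namespace Pool.Agent.Results.MP_6acca1_an.DenseEscapingCk

open Pool.Agent.N980.TL Pool.Agent.J6H35.TL

theorem result (k n : ℕ) (hk : 2 ≤ k) (hn : k ≤ n) (δ : ℝ) (hδ0 : 0 < δ)
    (hδ : δ < (n - k) / ((n - 1) * (k + 1)) ∨ δ ≤ 1 / (25 * (n - 1) ^ 2))
    (U f₀ : (Fin n → ℝ) → ℝ → ℝ) (hU : PotK k U) (hf₀ : PotK k f₀) (ε : ℝ) (hε : 0 < ε) :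
    ∃ f : (Fin n → ℝ) → ℝ → ℝ, PotK k f ∧ CloseK k ε f₀ f ∧
      ∀ L : (Fin n → ℝ) → (Fin n → ℝ) → ℝ → ℝ, MechInf U L →
        ∃ γ : ℝ → Fin n → ℝ, (∃ c > 0, ∀ t, 0 ≤ t → c * t ^ δ ≤ ‖deriv γ t‖) ∧
          ∀ t, 0 < t → EulerLagrange (fun x v t => L x v t + f x t) γ t := by
  obtain ⟨r, rfl⟩ : ∃ r, n = r + 2 := ⟨n - 2, by omega⟩
  refine mech_of hk hδ0 (denseK_all hk hn hδ0 ?_) U f₀ hU hf₀ ε hε
  have e : (((r + 2 : ℕ) : ℝ) - 1) = r + 1 := by push_cast; ring
  have e2 : (((r + 2 : ℕ) : ℝ)) = r + 2 := by push_cast; ring
  rw [e, e2] at hδ
  exact hδ

end Pool.Agent.Results.MP_6acca1_an.DenseEscapingCk
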