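import Pool.Agent.J6H35.TL.AllB
import Pool.Agent.N980.TL.BL4
import Pool.Agent.N980.TL.EX4
import Pool.Agent.N980.TL.GR4

set_option autoImplicit false

/-!
# Velocity growth for `C^k`-generic potentials in every dimension `n ≥ k`

Let `2 ≤ k ≤ n`, let `U` be a `ℤ^n × ℤ`-periodic potential of class `C^k` and let `φ` be any function.
There are open dense sets `O_m` of the space of the `ℤ^n × ℤ`-periodic potentials of class `C^k` such that
for all `f` in the intersection of these sets (so for a residual set of potentials), for all Lagrangians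
`L(x,v,t)` with `L = |v|²/2 + U(x,t)` for all large `v`, and for all `K` the Lagrangian `L + f` has an
orbit segment with velocity `|v| ≥ K` which starts with some velocity `v₀` and ends with a velocity larger
than `φ(|v₀|)`.

The sets are open by Gronwall's lemma, and dense because the potentials `f` such that `L + f` has an orbit
which tends to infinity are dense (`DenseEscapingCk`).
-/

open Set

namespace Pool.Agent.Results.MP_6acca1_an.GenericGrowthCk

open Pool.Agent.N980.TL Pool.Agent.J6H35.TL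

theorem result (k n : ℕ) (hk : 2 ≤ k) (hn : k ≤ n) (U : (Fin n → ℝ) → ℝ → ℝ) (hU : PotK k U)
    (φ : ℝ → ℝ) :
    ∃ O : ℕ → Set ((Fin n → ℝ) → ℝ → ℝ), (∀ m, OpenDenseK k (O m)) ∧
      ∀ f, (∀ m, f ∈ O m) →
        ∀ L : (Fin n → ℝ) → (Fin n → ℝ) → ℝ → ℝ, MechInf U L →
        ∀ K : ℝ, ∃ (γ : ℝ → Fin n → ℝ) (t0 t1 : ℝ), t0 < t1 ∧
        (∀ t ∈ Icc t0 t1, EulerLagrange (fun x v t => L x v t + f x t) γ t) ∧
        (∀ t ∈ Icc t0 t1, K ≤ ‖deriv γ t‖) ∧ φ ‖deriv γ t0‖ < ‖deriv γ t1‖ := by
  obtain ⟨r, rfl⟩ : ∃ r, n = r + 2 := ⟨n - 2, by omega⟩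
  have hq : (0 : ℝ) < 1 / (25 * ((r : ℝ) + 1) ^ 2) := by positivity
  exact growth_of hk hq (denseK_all hk hn hq (Or.inr le_rfl)) bl_all ex_all gr_all U hU φ

end Pool.Agent.Results.MP_6acca1_an.GenericGrowthCk
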